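import Mathlib
import Pool.Agent.Helper69.MC.StB

/-!
# Project MC (MP_9583f0_gt), module LC1: local components
-/

set_option autoImplicit false

open Set Topology Filter MeasureTheory
open Pool.Agent.Helper31.CY Pool.Agent.Helper69.MF Pool.Agent.Helper69.MC

namespace Pool.Agent.Helper62.MC

theorem inner_lower (t Y : ℝ) (ht0 : 0 ≤ t) (ht1 : t ≤ 1) (y e1 e2 : E3) (hY : ‖y‖ = Y)
    (h1 : ‖e1‖ ≤ 1 / 4 * ((1 - t) * Y)) (h2 : ‖e2‖ ≤ 1 / 4 * (t * Y)) :
    0 ≤ inner ℝ (t • y + e2) ((1 - t) • y + e1) := by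
  have hY0 : 0 ≤ Y := by rw [← hY]; exact norm_nonneg _
  have ht' : 0 ≤ 1 - t := by linarith
  have hexp : inner ℝ (t • y + e2) ((1 - t) • y + e1)
      = t * (1 - t) * Y ^ 2 + t * inner ℝ y e1 + (1 - t) * inner ℝ e2 y + inner ℝ e2 e1 := by
    rw [inner_add_left, inner_add_right, inner_add_right, inner_smul_left, inner_smul_left,
      inner_smul_right, inner_smul_right, real_inner_self_eq_norm_sq, hY]
    simp
    ring
  rw [hexp]
  have a1 : -(Y * (1 / 4 * ((1 - t) * Y))) ≤ inner ℝ y e1 := by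
    have := abs_real_inner_le_norm y e1
    rw [hY] at this
    have h3 : Y * ‖e1‖ ≤ Y * (1 / 4 * ((1 - t) * Y)) := mul_le_mul_of_nonneg_left h1 hY0
    have := neg_abs_le (inner ℝ y e1)
    linarith
  have a2 : -(1 / 4 * (t * Y) * Y) ≤ inner ℝ e2 y := by
    have := abs_real_inner_le_norm e2 y
    rw [hY] at this
    have h3 : ‖e2‖ * Y ≤ 1 / 4 * (t * Y) * Y := mul_le_mul_of_nonneg_right h2 hY0
    have := neg_abs_le (inner ℝ e2 y)
    linarith
  have a3 : -(1 / 4 * (t * Y) * (1 / 4 * ((1 - t) * Y))) ≤ inner ℝ e2 e1 := by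
    have := abs_real_inner_le_norm e2 e1
    have h3 : ‖e2‖ * ‖e1‖ ≤ 1 / 4 * (t * Y) * (1 / 4 * ((1 - t) * Y)) :=
      mul_le_mul h2 h1 (norm_nonneg _) (by positivity)
    have := neg_abs_le (inner ℝ e2 e1)
    linarith
  have b1 := mul_le_mul_of_nonneg_left a1 ht0
  have b2 := mul_le_mul_of_nonneg_left a2 ht'
  have b3 : 0 ≤ t * (1 - t) * Y ^ 2 := by positivity
  nlinarith

/-- local inverse -/
theorem exists_inv (Ψ : E3 → E3) (p : E3) (R : ℝ) (hR : 0 < R)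
    (hA : ∀ x ∈ Metric.ball p R, ∀ y ∈ Metric.ball p R,
      ‖Ψ x - Ψ y - (x - y)‖ ≤ 1 / 5 * ‖x - y‖) (h0 : Ψ p = 0) :
    ∃ G : E3 → E3, (∀ y, ‖y‖ ≤ 2 / 5 * R → Ψ (G y) = y ∧ G y ∈ Metric.ball p R) ∧ G 0 = p ∧
      (∀ x ∈ Metric.ball p R, ‖Ψ x‖ ≤ 2 / 5 * R → G (Ψ x) = x) ∧
      ∀ y y', ‖y‖ ≤ 2 / 5 * R → ‖y'‖ ≤ 2 / 5 * R → ‖G y - G y' - (y - y')‖ ≤ 1 / 4 * ‖y - y'‖ := by
  have hinj : ∀ x ∈ Metric.ball p R, ∀ y ∈ Metric.ball p R, Ψ x = Ψ y → x = y := by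
    intro x hx y hy hxy
    have h1 := hA x hx y hy
    rw [hxy, sub_self, zero_sub, norm_neg] at h1
    have h2 : ‖x - y‖ = 0 := le_antisymm (by linarith [norm_nonneg (x - y)]) (norm_nonneg _)
    exact sub_eq_zero.1 (norm_eq_zero.1 h2)
  have hsurj : ∀ y, ‖y‖ ≤ 2 / 5 * R → ∃ x ∈ Metric.ball p R, Ψ x = y := by
    intro y hy
    have hAL : ApproximatesLinearOn Ψ ((ContinuousLinearEquiv.refl ℝ E3 : E3 ≃L[ℝ] E3) :
        E3 →L[ℝ] E3) (Metric.ball p R) (1 / 5 : NNReal) := by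
      intro x hx z hz
      have := hA x hx z hz
      simpa using this
    have h1 := hAL.surjOn_closedBall_of_nonlinearRightInverse
      (ContinuousLinearEquiv.refl ℝ E3).toNonlinearRightInverse (ε := R / 2) (b := p)
      (by linarith) (by
        intro z hz
        rw [Metric.mem_closedBall] at hz
        rw [Metric.mem_ball]; linarith)
    have hnn : ((ContinuousLinearEquiv.refl ℝ E3).toNonlinearRightInverse.nnnorm : ℝ) ≤ 1 := by
      change ‖((ContinuousLinearEquiv.refl ℝ E3).symm : E3 →L[ℝ] E3)‖ ≤ 1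
      exact ContinuousLinearMap.norm_id_le
    have hy' : y ∈ Metric.closedBall (Ψ p)
        (((((ContinuousLinearEquiv.refl ℝ E3).toNonlinearRightInverse.nnnorm : ℝ))⁻¹
          - ((1 / 5 : NNReal) : ℝ)) * (R / 2)) := by
      rw [h0, mem_closedBall_zero_iff]
      refine hy.trans ?_
      have hpos : 0 < ((ContinuousLinearEquiv.refl ℝ E3).toNonlinearRightInverse.nnnorm : ℝ) := by
        have : (ContinuousLinearEquiv.refl ℝ E3).toNonlinearRightInverse.nnnorm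
            = ‖((ContinuousLinearEquiv.refl ℝ E3).symm : E3 →L[ℝ] E3)‖₊ := rfl
        rw [this]
        have h3 : ‖((ContinuousLinearEquiv.refl ℝ E3).symm : E3 →L[ℝ] E3)‖ = 1 :=
          ContinuousLinearMap.norm_id
        have h4 : (‖((ContinuousLinearEquiv.refl ℝ E3).symm : E3 →L[ℝ] E3)‖₊ : ℝ) = 1 := h3
        rw [h4]; norm_num
      have h5 : 1 ≤ (((ContinuousLinearEquiv.refl ℝ E3).toNonlinearRightInverse.nnnorm : ℝ))⁻¹ :=
        (one_le_inv₀ hpos).2 hnn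
      have h6 : (((1 / 5 : NNReal)) : ℝ) = 1 / 5 := by norm_num
      rw [h6]
      have h7 : (1 - 1 / 5) * (R / 2) ≤
          (((((ContinuousLinearEquiv.refl ℝ E3).toNonlinearRightInverse.nnnorm : ℝ))⁻¹
          - 1 / 5) * (R / 2)) := mul_le_mul_of_nonneg_right (by linarith) (by linarith)
      linarith
    obtain ⟨x, hx, hxy⟩ := h1 hy'
    refine ⟨x, ?_, hxy⟩
    rw [Metric.mem_closedBall] at hx
    rw [Metric.mem_ball]; linarith
  have hch : ∀ y, ∃ x, ‖y‖ ≤ 2 / 5 * R → x ∈ Metric.ball p R ∧ Ψ x = y := by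
    intro y
    by_cases hy : ‖y‖ ≤ 2 / 5 * R
    · obtain ⟨x, hx, hxy⟩ := hsurj y hy
      exact ⟨x, fun _ => ⟨hx, hxy⟩⟩
    · exact ⟨p, fun h => absurd h hy⟩
  choose G hG using hch
  refine ⟨G, fun y hy => ⟨(hG y hy).2, (hG y hy).1⟩, ?_, ?_, ?_⟩
  · have h1 := hG 0 (by simp; linarith)
    exact hinj _ h1.1 _ (Metric.mem_ball_self hR) (by rw [h1.2, h0])
  · intro x hx hx'
    have h1 := hG _ hx'
    exact hinj _ h1.1 _ hx h1.2
  · intro y y' hy hy'
    have h1 := hG y hy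
    have h2 := hG y' hy'
    have h3 := hA _ h1.1 _ h2.1
    rw [h1.2, h2.2] at h3
    have h4 : ‖G y - G y'‖ ≤ ‖y - y'‖ + 1 / 5 * ‖G y - G y'‖ := by
      calc ‖G y - G y'‖ = ‖(y - y') - (y - y' - (G y - G y'))‖ := by congr 1; abel
        _ ≤ ‖y - y'‖ + ‖y - y' - (G y - G y')‖ := norm_sub_le _ _
        _ ≤ _ := by linarith
    have h5 : ‖G y - G y' - (y - y')‖ = ‖y - y' - (G y - G y')‖ := by
      rw [← norm_neg]; congr 1; abel
    rw [h5]
    linarith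

theorem hLC1 : StCNE → StLC1 := by
  intro hCNE S m v p Φ U hm hAdj hU hpU hΦ hΦp hiso hS
  obtain ⟨-, -, -, -, -, -, hgen⟩ := hCNE
  obtain ⟨hSg, hdisj, hcompl⟩ := hgen m v hm
  -- the linear isometry
  obtain ⟨AE, hAE⟩ : ∃ AE : E3 ≃ₗᵢ[ℝ] E3, ∀ w, AE w = fderiv ℝ Φ p w := by
    let li : E3 →ₗᵢ[ℝ] E3 := ⟨(fderiv ℝ Φ p).toLinearMap, hiso⟩
    exact ⟨li.toLinearIsometryEquiv rfl, fun w => rfl⟩
  have hsd : HasStrictFDerivAt Φ (fderiv ℝ Φ p) p :=
    (hΦ.contDiffAt (hU.mem_nhds hpU)).hasStrictFDerivAt (by norm_num)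
  obtain ⟨Ψ, hΨ⟩ : ∃ Ψ : E3 → E3, Ψ = fun x => AE.symm (Φ x) := ⟨_, rfl⟩
  have hΨΦ : ∀ x, AE (Ψ x) = Φ x := by intro x; rw [hΨ]; simp
  have hsd' : HasStrictFDerivAt Ψ (ContinuousLinearMap.id ℝ E3) p := by
    have h1 : HasStrictFDerivAt (fun x => AE.symm (Φ x))
        ((AE.symm.toContinuousLinearEquiv : E3 →L[ℝ] E3).comp (fderiv ℝ Φ p)) p :=
      (AE.symm.toContinuousLinearEquiv : E3 →L[ℝ] E3).hasStrictFDerivAt.comp p hsd
    rw [hΨ]
    have h2 : (AE.symm.toContinuousLinearEquiv : E3 →L[ℝ] E3).comp (fderiv ℝ Φ p)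
        = ContinuousLinearMap.id ℝ E3 := by
      apply ContinuousLinearMap.ext
      intro w
      change AE.symm (fderiv ℝ Φ p w) = w
      rw [← hAE w]; simp
    rw [← h2]
    exact h1
  have hΨp : Ψ p = 0 := by rw [hΨ]; simp [hΦp]
  obtain ⟨s, hs, hAL⟩ := hsd'.approximates_deriv_on_nhds (c := (1 / 5 : NNReal))
    (Or.inr (by norm_num))
  obtain ⟨R, hR, hRs⟩ := Metric.mem_nhds_iff.1 (Filter.inter_mem hs (hU.mem_nhds hpU))
  have hA : ∀ x ∈ Metric.ball p R, ∀ y ∈ Metric.ball p R,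
      ‖Ψ x - Ψ y - (x - y)‖ ≤ 1 / 5 * ‖x - y‖ := by
    intro x hx y hy
    have := hAL x (hRs hx).1 y (hRs hy).1
    simpa using this
  obtain ⟨G, hG1, hG0, hG2, hG3⟩ := exists_inv Ψ p R hR hA hΨp
  have hΨn : ∀ x ∈ Metric.ball p (R / 4), ‖Ψ x‖ ≤ 2 / 5 * R := by
    intro x hx
    rw [Metric.mem_ball, dist_eq_norm] at hx
    have h1 := hA x (by rw [Metric.mem_ball, dist_eq_norm]; linarith) p (Metric.mem_ball_self hR)
    rw [hΨp, sub_zero] at h1
    have h2 : ‖Ψ x‖ ≤ ‖Ψ x - (x - p)‖ + ‖x - p‖ := by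
      calc ‖Ψ x‖ = ‖(Ψ x - (x - p)) + (x - p)‖ := by congr 1; abel
        _ ≤ _ := norm_add_le _ _
    linarith
  have hGc : ContinuousOn G (Metric.closedBall 0 (2 / 5 * R)) := by
    have hL : LipschitzOnWith (5 / 4 : NNReal) G (Metric.closedBall 0 (2 / 5 * R)) := by
      apply LipschitzOnWith.of_dist_le_mul
      intro y hy y' hy'
      rw [mem_closedBall_zero_iff] at hy hy'
      have h1 := hG3 y y' hy hy'
      rw [dist_eq_norm, dist_eq_norm]
      have h2 : ‖G y - G y'‖ ≤ ‖G y - G y' - (y - y')‖ + ‖y - y'‖ := by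
        calc ‖G y - G y'‖ = ‖(G y - G y' - (y - y')) + (y - y')‖ := by congr 1; abel
          _ ≤ _ := norm_add_le _ _
      have h3 : (((5 / 4 : NNReal)) : ℝ) = 5 / 4 := by norm_num
      rw [h3]; linarith
    exact hL.continuousOn
  have hmono : ∀ y : E3, ‖y‖ ≤ 2 / 5 * R → ∀ t : ℝ, 0 ≤ t → t ≤ 1 → ‖G (t • y) - p‖ ≤ ‖G y - p‖ := by
    intro y hy t ht0 ht1
    have hty : ‖t • y‖ ≤ 2 / 5 * R := by
      rw [norm_smul, Real.norm_of_nonneg ht0]
      have := norm_nonneg y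
      nlinarith
    have h00 : ‖(0 : E3)‖ ≤ 2 / 5 * R := by simp; linarith
    have h2 := hG3 (t • y) 0 hty h00
    rw [hG0, sub_zero, norm_smul, Real.norm_of_nonneg ht0] at h2
    have h1 := hG3 y (t • y) hy hty
    have e1 : y - t • y = (1 - t) • y := by rw [sub_smul, one_smul]
    rw [e1, norm_smul, Real.norm_of_nonneg (by linarith : (0 : ℝ) ≤ 1 - t)] at h1
    have h3 := inner_lower t ‖y‖ ht0 ht1 y (G y - G (t • y) - (1 - t) • y)
      (G (t • y) - p - t • y) rfl h1 h2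
    have e2 : t • y + (G (t • y) - p - t • y) = G (t • y) - p := by abel
    have e3 : (1 - t) • y + (G y - G (t • y) - (1 - t) • y) = G y - G (t • y) := by abel
    rw [e2, e3] at h3
    have h4 : ‖G y - p‖ ^ 2 = ‖G (t • y) - p‖ ^ 2
        + 2 * inner ℝ (G (t • y) - p) (G y - G (t • y)) + ‖G y - G (t • y)‖ ^ 2 := by
      rw [← norm_add_sq_real]
      congr 2
      abel
    have h5 : ‖G (t • y) - p‖ ^ 2 ≤ ‖G y - p‖ ^ 2 := by
      rw [h4]; nlinarith [sq_nonneg ‖G y - G (t • y)‖]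
    exact le_of_sq_le_sq h5 (norm_nonneg _)
  have hball : Metric.ball p (R / 4) ⊆ Metric.ball p R := Metric.ball_subset_ball (by linarith)
  have hbU : Metric.ball p (R / 4) ⊆ U := fun x hx => (hRs (hball hx)).2
  refine ⟨R / 4, by linarith, hbU, by linarith, ?_, ?_, ?_, ?_⟩
  · intro i
    have h1 : IsOpen (Metric.ball p (R / 4) ∩ Φ ⁻¹' (Sg v i)) :=
      (hΦ.continuousOn.mono hbU).isOpen_inter_preimage Metric.isOpen_ball (hSg i).1
    have h2 : Metric.ball p (R / 4) ∩ {x | x ∈ Metric.ball p (R / 4) ∧ Φ x ∈ Sg v i}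
        = Metric.ball p (R / 4) ∩ Φ ⁻¹' (Sg v i) := by
      ext x
      constructor
      · rintro ⟨h3, h4, h5⟩
        exact ⟨h3, h5⟩
      · rintro ⟨h3, h4⟩
        exact ⟨h3, h3, h4⟩
    rw [h2]
    exact h1
  · intro ρ hρ hρ' i
    obtain ⟨hop, hcv, hcone⟩ := hSg i
    obtain ⟨F, hF⟩ : ∃ F : Set E3, F = Metric.ball p ρ ∩
      {x | x ∈ Metric.ball p (R / 4) ∧ Φ x ∈ Sg v i} := ⟨_, rfl⟩
    obtain ⟨C, hC⟩ : ∃ C : Set E3, C = {y | AE y ∈ Sg v i} := ⟨_, rfl⟩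
    have hCcv : Convex ℝ C := by
      rw [hC]
      exact hcv.linear_preimage AE.toLinearEquiv.toLinearMap
    have hCcone : ∀ y ∈ C, ∀ t : ℝ, 0 < t → t • y ∈ C := by
      intro y hy t ht
      rw [hC] at hy ⊢
      change AE (t • y) ∈ Sg v i
      rw [map_smul]
      exact hcone _ hy t ht
    have hCne : ∃ c, c ∈ C := by
      obtain ⟨z, hz⟩ := hAdj.1 i
      refine ⟨AE.symm z, ?_⟩
      rw [hC]
      change AE (AE.symm z) ∈ Sg v i
      simpa using hz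
    have hGF : ∀ y ∈ C, ‖y‖ ≤ 2 / 5 * R → ‖G y - p‖ < ρ → G y ∈ F := by
      intro y hy hyn hlt
      rw [hF]
      have h1 : G y ∈ Metric.ball p ρ := by rw [Metric.mem_ball, dist_eq_norm]; exact hlt
      refine ⟨h1, Metric.ball_subset_ball hρ' h1, ?_⟩
      rw [← hΨΦ, (hG1 y hyn).1]
      rw [hC] at hy
      exact hy
    have hGp : ∀ y, ‖y‖ ≤ 2 / 5 * R → ‖G y - p‖ ≤ 5 / 4 * ‖y‖ := by
      intro y hy
      have h00 : ‖(0 : E3)‖ ≤ 2 / 5 * R := by simp; linarith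
      have h2 := hG3 y 0 hy h00
      rw [hG0, sub_zero] at h2
      calc ‖G y - p‖ = ‖(G y - p - y) + y‖ := by congr 1; abel
        _ ≤ ‖G y - p - y‖ + ‖y‖ := norm_add_le _ _
        _ ≤ _ := by linarith
    -- the image of a small convex set
    obtain ⟨B, hB⟩ : ∃ B : Set E3, B = C ∩ Metric.ball 0 (ρ / 2) := ⟨_, rfl⟩
    have hsmall : ∀ y ∈ C, ∃ t : ℝ, 0 < t ∧ t ≤ 1 ∧ t • y ∈ B := by
      intro y hy
      have hyn := norm_nonneg y
      refine ⟨min 1 (ρ / 4 / (‖y‖ + 1)), by positivity, min_le_left _ _, ?_⟩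
      rw [hB]
      refine ⟨hCcone y hy _ (by positivity), ?_⟩
      rw [mem_ball_zero_iff, norm_smul, Real.norm_of_nonneg (by positivity)]
      have h1 : min 1 (ρ / 4 / (‖y‖ + 1)) * ‖y‖ ≤ ρ / 4 / (‖y‖ + 1) * (‖y‖ + 1) :=
        mul_le_mul (min_le_right _ _) (by linarith) hyn (by positivity)
      have h2 : ρ / 4 / (‖y‖ + 1) * (‖y‖ + 1) = ρ / 4 := by field_simp
      linarith
    have hBne : B.Nonempty := by
      obtain ⟨c, hc⟩ := hCne
      obtain ⟨t, -, -, ht⟩ := hsmall c hc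
      exact ⟨_, ht⟩
    have hBcv : Convex ℝ B := by rw [hB]; exact hCcv.inter (convex_ball _ _)
    have hBn : ∀ y ∈ B, ‖y‖ ≤ 2 / 5 * R ∧ ‖G y - p‖ < ρ ∧ y ∈ C := by
      intro y hy
      rw [hB] at hy
      obtain ⟨h1, h2⟩ := hy
      rw [mem_ball_zero_iff] at h2
      have h3 : ‖y‖ ≤ 2 / 5 * R := by linarith
      have h4 := hGp y h3
      exact ⟨h3, by linarith, h1⟩
    have hGB : IsPathConnected (G '' B) := by
      apply (hBcv.isPathConnected hBne).image'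
      apply hGc.mono
      intro y hy
      rw [mem_closedBall_zero_iff]
      exact (hBn y hy).1
    have hGBF : G '' B ⊆ F := by
      rintro _ ⟨y, hy, rfl⟩
      exact hGF y (hBn y hy).2.2 (hBn y hy).1 (hBn y hy).2.1
    obtain ⟨b, hb⟩ := hBne
    have hmain : ∀ x ∈ F, JoinedIn F (G b) x := by
      intro x hx
      have hx' := hx
      rw [hF] at hx'
      obtain ⟨hx1, hx2, hx3⟩ := hx'
      have hyn : ‖Ψ x‖ ≤ 2 / 5 * R := hΨn x hx2
      have hyC : Ψ x ∈ C := by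
        rw [hC]
        change AE (Ψ x) ∈ Sg v i
        rw [hΨΦ]; exact hx3
      have hGx : G (Ψ x) = x := hG2 x (hball hx2) hyn
      obtain ⟨t, ht0, ht1, htB⟩ := hsmall _ hyC
      have hseg : IsPathConnected ((fun s : ℝ => G (s • Ψ x)) '' Icc t 1) := by
        apply ((convex_Icc t 1).isPathConnected ⟨1, ht1, le_refl 1⟩).image'
        apply hGc.comp (by fun_prop)
        intro s hs
        rw [mem_closedBall_zero_iff, norm_smul, Real.norm_of_nonneg (by linarith [hs.1])]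
        have := norm_nonneg (Ψ x)
        nlinarith [hs.1, hs.2]
      have hsub : (fun s : ℝ => G (s • Ψ x)) '' Icc t 1 ⊆ F := by
        rintro _ ⟨s, hs, rfl⟩
        have hs0 : 0 < s := by linarith [hs.1]
        have h1 := hmono (Ψ x) hyn s hs0.le hs.2
        rw [hGx] at h1
        apply hGF _ (hCcone _ hyC s hs0)
        · rw [norm_smul, Real.norm_of_nonneg hs0.le]
          have := norm_nonneg (Ψ x)
          nlinarith [hs.2]
        · rw [Metric.mem_ball, dist_eq_norm] at hx1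
          linarith
      have j1 : JoinedIn F (G (t • Ψ x)) x := by
        have h1 := hseg.joinedIn (G (t • Ψ x)) ⟨t, ⟨le_refl t, ht1⟩, rfl⟩ (G ((1 : ℝ) • Ψ x))
          ⟨1, ⟨ht1, le_refl 1⟩, rfl⟩
        rw [one_smul, hGx] at h1
        exact h1.mono hsub
      have j2 : JoinedIn F (G b) (G (t • Ψ x)) :=
        (hGB.joinedIn _ ⟨b, hb, rfl⟩ _ ⟨_, htB, rfl⟩).mono hGBF
      exact j2.trans j1
    rw [← hF]
    exact ⟨G b, hGBF ⟨b, hb, rfl⟩, fun {x} hx => hmain x hx⟩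
  · intro x hx
    constructor
    · intro hxS
      have h1 : Φ x ∈ (Cn v)ᶜ := fun h => hxS ((hS x (hbU hx)).2 h)
      rw [hcompl] at h1
      obtain ⟨i, hi⟩ := mem_iUnion.1 h1
      exact ⟨i, hx, hi⟩
    · rintro ⟨i, -, hi⟩ hxS
      have h1 : Φ x ∈ (Cn v)ᶜ := by
        rw [hcompl]
        exact mem_iUnion.2 ⟨i, hi⟩
      exact h1 ((hS x (hbU hx)).1 hxS)
  · intro i j hij
    rw [Set.disjoint_left]
    rintro x ⟨-, h1⟩ ⟨-, h2⟩
    exact Set.disjoint_left.1 (hdisj i j hij) h1 h2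

end Pool.Agent.Helper62.MC
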